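import Pool.Agent.H26.Lib.R_pool_sql_team_seeded_3997aac3.Q5.BR.Rank2

/-! Artin's induction theorem for the trivial character, and the relation between the fixed fields. -/

set_option autoImplicit false
set_option linter.unusedSectionVars false

namespace Pool.Agent.Q5.HR

open Pool.Agent.W353.NF Pool.Agent.W401.Cheb
open scoped Classical

section
variable {G : Type} [Group G] [Finite G]

/-- the number of the `x` with `x⁻¹ g x ∈ H` -/
noncomputable def cj (H : Subgroup G) (g : G) : ℕ := Nat.card {x : G // x⁻¹ * g * x ∈ H}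

/-- the number of the `x` such that `x⁻¹ g x` generates `C` -/
noncomputable def th (C : Subgroup G) (g : G) : ℕ :=
  Nat.card {x : G // Subgroup.zpowers (x⁻¹ * g * x) = C}

theorem cj_eq [Fintype (Subgroup G)] (H : Subgroup G) (g : G) :
    cj H g = ∑ B ∈ Finset.univ.filter (fun B : Subgroup G => B ≤ H), th B g := by
  have := Fintype.ofFinite G
  unfold cj th
  simp only [Nat.card_eq_fintype_card, Fintype.card_subtype]
  rw [← Finset.card_biUnion]
  · congr 1
    ext x
    simp only [Finset.mem_filter, Finset.mem_univ, true_and, Finset.mem_biUnion]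
    constructor
    · intro h
      exact ⟨_, (Subgroup.zpowers_le).2 h, rfl⟩
    · rintro ⟨B, hB, rfl⟩
      exact hB (Subgroup.mem_zpowers _)
  · intro B _ B' _ hBB'
    refine Finset.disjoint_left.2 ?_
    intro x hx hx'
    exact hBB' (((Finset.mem_filter.1 hx).2).symm.trans (Finset.mem_filter.1 hx').2)

theorem sum_th [Fintype (Subgroup G)] (g : G) : ∑ B : Subgroup G, th B g = Nat.card G := by
  have h := cj_eq (⊤ : Subgroup G) g
  rw [Finset.filter_true_of_mem fun B _ => le_top] at h
  rw [← h]
  unfold cj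
  simp

theorem th_zero {C : Subgroup G} (hC : ¬ ∃ h, C = Subgroup.zpowers h) (g : G) : th C g = 0 := by
  unfold th
  rw [Nat.card_eq_zero]
  left
  exact ⟨fun x => hC ⟨_, x.2.symm⟩⟩

/-- `φ` is a combination of the functions `fix B`, `B` cyclic -/
def Comb (fix : Subgroup G → G → ℤ) [Fintype (Subgroup G)] (φ : G → ℤ) : Prop :=
  ∃ n : Subgroup G → ℤ, (∀ B, n B ≠ 0 → ∃ h, B = Subgroup.zpowers h) ∧
    ∀ g, φ g = ∑ B, n B * fix B g

variable {fix : Subgroup G → G → ℤ} [Fintype (Subgroup G)]

theorem Comb.zero : Comb fix (fun _ => 0) :=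
  ⟨fun _ => 0, fun _ h => absurd rfl h, fun g => by simp⟩

theorem Comb.add {φ ψ : G → ℤ} (h1 : Comb fix φ) (h2 : Comb fix ψ) :
    Comb fix (fun g => φ g + ψ g) := by
  obtain ⟨n, hn, hn'⟩ := h1
  obtain ⟨k, hk, hk'⟩ := h2
  refine ⟨fun B => n B + k B, fun B hB => ?_, fun g => ?_⟩
  · by_cases h : n B = 0
    · refine hk B fun h' => hB ?_
      change n B + k B = 0
      rw [h, h', add_zero]
    · exact hn B h
  · change φ g + ψ g = _
    rw [hn', hk', ← Finset.sum_add_distrib]
    exact Finset.sum_congr rfl fun B _ => by ring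

theorem Comb.smul {φ : G → ℤ} (h1 : Comb fix φ) (c : ℤ) : Comb fix (fun g => c * φ g) := by
  obtain ⟨n, hn, hn'⟩ := h1
  refine ⟨fun B => c * n B, fun B hB => hn B fun h => hB ?_, fun g => ?_⟩
  · change c * n B = 0
    rw [h, mul_zero]
  · change c * φ g = _
    rw [hn', Finset.mul_sum]
    exact Finset.sum_congr rfl fun B _ => by ring

theorem Comb.sum {ι : Type} (s : Finset ι) {φ : ι → G → ℤ} (h : ∀ i ∈ s, Comb fix (φ i)) :
    Comb fix (fun g => ∑ i ∈ s, φ i g) := by
  induction s using Finset.induction_on with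
  | empty => simpa using Comb.zero
  | insert a s ha ih =>
    simp only [Finset.sum_insert ha]
    exact (h a (Finset.mem_insert_self a s)).add
      (ih fun i hi => h i (Finset.mem_insert_of_mem hi))

theorem comb_self {C : Subgroup G} (hC : ∃ h, C = Subgroup.zpowers h) : Comb fix (fix C) := by
  refine ⟨fun B => if B = C then 1 else 0, fun B hB => ?_, fun g => ?_⟩
  · by_cases h : B = C
    · rw [h]; exact hC
    · exact absurd (if_neg h) hB
  · simp

theorem comb_th (hfix : ∀ (B : Subgroup G) (g : G), (Nat.card B : ℤ) * fix B g = cj B g) (N : ℕ) :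
    ∀ C : Subgroup G, Nat.card C = N → Comb fix (fun g => (th C g : ℤ)) := by
  induction N using Nat.strong_induction_on with
  | _ N ih =>
    intro C hCN
    by_cases hC : ∃ h, C = Subgroup.zpowers h
    · have h1 : (fun g => (th C g : ℤ)) = fun g => (Nat.card C : ℤ) * fix C g +
          (-1) * ∑ B ∈ Finset.univ.filter (fun B : Subgroup G => B < C), (th B g : ℤ) := by
        funext g
        have h2 := cj_eq C g
        have h3 : Finset.univ.filter (fun B : Subgroup G => B ≤ C) =
            insert C (Finset.univ.filter (fun B : Subgroup G => B < C)) := by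
          ext B
          simp only [Finset.mem_filter, Finset.mem_univ, true_and, Finset.mem_insert]
          exact le_iff_eq_or_lt
        rw [h3, Finset.sum_insert (by simp)] at h2
        rw [hfix, h2]
        push_cast
        ring
      rw [h1]
      refine ((comb_self hC).smul _).add (Comb.smul (Comb.sum _ fun B hB => ?_) _)
      have hlt : B < C := (Finset.mem_filter.1 hB).2
      refine ih (Nat.card B) ?_ B rfl
      rw [← hCN]
      refine lt_of_le_of_ne (Subgroup.card_le_of_le hlt.le) fun h => ?_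
      exact hlt.ne (Subgroup.eq_of_le_of_card_ge hlt.le h.ge)
    · have h1 : (fun g => (th C g : ℤ)) = fun _ => 0 := by
        funext g
        rw [th_zero hC, Nat.cast_zero]
      rw [h1]
      exact Comb.zero

/-- **Artin's theorem** for the trivial character. -/
theorem artin (hfix : ∀ (B : Subgroup G) (g : G), (Nat.card B : ℤ) * fix B g = cj B g) :
    ∃ n : Subgroup G → ℤ, (∀ B, n B ≠ 0 → ∃ h, B = Subgroup.zpowers h) ∧
      ∀ g, ∑ B, n B * fix B g = Nat.card G := by
  have h := Comb.sum (fix := fix) (Finset.univ : Finset (Subgroup G)) (φ := fun C g => (th C g : ℤ))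
    (fun C _ => comb_th hfix _ C rfl)
  obtain ⟨n, hn, hn'⟩ := h
  refine ⟨n, hn, fun g => ?_⟩
  rw [← hn' g, ← sum_th g]
  push_cast
  rfl

end

section
variable {K : Type} [Field K] [NumberField K] {N : Type} [Field N] [Algebra K N]
  [FiniteDimensional K N] [IsGalois K N]

theorem mem_of_fix {B : Subgroup (N ≃ₐ[K] N)} {x : N ≃ₐ[K] N}
    (h : ∀ z : IntermediateField.fixedField B, x (z : N) = z) : x ∈ B := by
  rw [← IntermediateField.fixingSubgroup_fixedField B]
  exact h

/-- the restrictions of the automorphisms -/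
theorem fib (B : Subgroup (N ≃ₐ[K] N)) (i : IntermediateField.fixedField B →ₐ[K] N) :
    Nat.card {x : N ≃ₐ[K] N // (x : N →ₐ[K] N).comp (IntermediateField.fixedField B).val = i} =
      Nat.card B := by
  -- an extension of `i`
  obtain ⟨y, hy⟩ : ∃ y : N ≃ₐ[K] N,
      (y : N →ₐ[K] N).comp (IntermediateField.fixedField B).val = i := by
    have hb : Function.Bijective (i.liftNormal N) :=
      AlgHom.normal_bijective K N N (i.liftNormal N)
    refine ⟨AlgEquiv.ofBijective (i.liftNormal N) hb, ?_⟩
    apply AlgHom.ext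
    intro x
    exact i.liftNormal_commutes N x
  symm
  refine Nat.card_congr ⟨fun b => ⟨y * b.1, ?_⟩, fun x => ⟨y⁻¹ * x.1, ?_⟩, fun b => ?_, fun x => ?_⟩
  · rw [← hy]
    apply AlgHom.ext
    intro z
    change y (b.1 (z : N)) = y (z : N)
    have h : b.1 (z : N) = z := (IntermediateField.mem_fixedField_iff B _).1 z.2 b.1 b.2
    rw [h]
  · refine mem_of_fix fun z => ?_
    change y⁻¹ (x.1 (z : N)) = z
    have h1 := DFunLike.congr_fun (x.2.trans hy.symm) z
    have h2 : x.1 (z : N) = y (z : N) := h1
    rw [h2]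
    exact y.symm_apply_apply _
  · exact Subtype.ext (inv_mul_cancel_left y b.1)
  · exact Subtype.ext (mul_inv_cancel_left y x.1)

/-- the fixed embeddings of a fixed field -/
theorem card_mul_fix (B : Subgroup (N ≃ₐ[K] N)) (g : N ≃ₐ[K] N) :
    Nat.card B * Nat.card {i : IntermediateField.fixedField B →ₐ[K] N //
      (g : N →ₐ[K] N).comp i = i} = cj B g := by
  have hfe : Finite (IntermediateField.fixedField B →ₐ[K] N) := inferInstance
  have e1 : {x : N ≃ₐ[K] N // x⁻¹ * g * x ∈ B} ≃
      Σ i : {i : IntermediateField.fixedField B →ₐ[K] N // (g : N →ₐ[K] N).comp i = i},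
        {x : N ≃ₐ[K] N // (x : N →ₐ[K] N).comp (IntermediateField.fixedField B).val = i.1} :=
    { toFun := fun x => ⟨⟨(x.1 : N →ₐ[K] N).comp (IntermediateField.fixedField B).val, by
        apply AlgHom.ext
        intro z
        change g (x.1 (z : N)) = x.1 (z : N)
        have h : (x.1⁻¹ * g * x.1) (z : N) = z :=
          (IntermediateField.mem_fixedField_iff B _).1 z.2 _ x.2
        have h2 := congrArg x.1 h
        rwa [← AlgEquiv.mul_apply, mul_assoc, mul_inv_cancel_left] at h2⟩, ⟨x.1, rfl⟩⟩
      invFun := fun p => ⟨p.2.1, by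
        refine mem_of_fix fun z => ?_
        have h1 := DFunLike.congr_fun p.1.2 z
        have h2 := DFunLike.congr_fun p.2.2 z
        change g (p.1.1 z) = p.1.1 z at h1
        change p.2.1 (z : N) = p.1.1 z at h2
        rw [← h2] at h1
        change p.2.1⁻¹ (g (p.2.1 (z : N))) = z
        rw [h1]
        exact p.2.1.symm_apply_apply _⟩
      left_inv := fun x => rfl
      right_inv := by
        rintro ⟨⟨i, hi⟩, ⟨x, hx⟩⟩
        change (x : N →ₐ[K] N).comp (IntermediateField.fixedField B).val = i at hx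
        subst hx
        rfl }
  have hf1 : Fintype {i : IntermediateField.fixedField B →ₐ[K] N //
      (g : N →ₐ[K] N).comp i = i} := Fintype.ofFinite _
  unfold cj
  rw [Nat.card_congr e1, Nat.card_sigma, Finset.sum_congr rfl fun i _ => fib B i.1,
    Finset.sum_const, Finset.card_univ, smul_eq_mul, mul_comm,
    Nat.card_eq_fintype_card (α := {i : IntermediateField.fixedField B →ₐ[K] N //
      (g : N →ₐ[K] N).comp i = i})]

end

theorem exists_extension {K F N Ω : Type} [Field K] [Field F] [Field N] [Field Ω] [IsAlgClosed Ω]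
    [Algebra K F] [Algebra K N] [Algebra F N] [IsScalarTower K F N] [Algebra K Ω]
    [Algebra.IsAlgebraic K N] (i : F →ₐ[K] Ω) :
    ∃ f : N →ₐ[K] Ω, ∀ z : F, f (algebraMap F N z) = i z := by
  let _ : Algebra F Ω := i.toRingHom.toAlgebra
  have : IsScalarTower K F Ω := IsScalarTower.of_algebraMap_eq fun x => (i.commutes x).symm
  have : Algebra.IsAlgebraic F N := Algebra.IsAlgebraic.tower_top (K := K) F
  let f : N →ₐ[F] Ω := IsAlgClosed.lift
  exact ⟨f.restrictScalars K, fun z => f.commutes z⟩

section
variable {K : Type} [Field K] [NumberField K]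

/-- **The relation between the fixed fields of the cyclic subgroups.** -/
theorem artin_relation (N : IntermediateField K (AlgebraicClosure K)) [FiniteDimensional K N]
    [hN : Normal K N] :
    ∃ (ι : Type) (_ : Fintype ι) (B : ι → Subgroup (N ≃ₐ[K] N)) (n : ι → ℤ),
      (∀ j, ∃ h, B j = Subgroup.zpowers h) ∧
      ∀ σ : GK K, ∑ j, n j * (fixn K (IntermediateField.fixedField (B j)) σ : ℤ) =
        Nat.card (N ≃ₐ[K] N) := by
  have hgal : IsGalois K N := {}
  have : Fintype (Subgroup (N ≃ₐ[K] N)) := Fintype.ofFinite _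
  obtain ⟨n, hn, hn'⟩ := artin (G := N ≃ₐ[K] N) (fix := fun B g =>
    (Nat.card {i : IntermediateField.fixedField B →ₐ[K] N // (g : N →ₐ[K] N).comp i = i} : ℤ))
    (fun B g => by
      have h := card_mul_fix B g
      exact_mod_cast h)
  refine ⟨{B : Subgroup (N ≃ₐ[K] N) // n B ≠ 0}, inferInstance, fun B => B.1, fun B => n B.1,
    fun B => hn B.1 B.2, fun σ => ?_⟩
  have hrange : ∀ B : Subgroup (N ≃ₐ[K] N), ∀ i : IntermediateField.fixedField B →ₐ[K]
      AlgebraicClosure K, i.fieldRange ≤ N := by
    rintro B i _ ⟨z, rfl⟩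
    obtain ⟨f, hf⟩ := exists_extension (N := N) i
    have h2 : f.fieldRange = N := AlgHom.fieldRange_of_normal f
    change i z ∈ N
    have h3 : i z ∈ f.fieldRange := ⟨_, hf z⟩
    exact h2.le h3
  rw [← hn' (AlgEquiv.restrictNormal σ N)]
  have h1 : ∀ B : Subgroup (N ≃ₐ[K] N), n B * (fixn K (IntermediateField.fixedField B) σ : ℤ) =
      n B * (Nat.card {i : IntermediateField.fixedField B →ₐ[K] N //
        ((AlgEquiv.restrictNormal σ N : N ≃ₐ[K] N) : N →ₐ[K] N).comp i = i} : ℤ) := by
    intro B
    rw [Pool.Agent.Q5.BR.card_fixed (IntermediateField.fixedField B) N (hrange B) σ]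
  rw [← Finset.sum_congr rfl fun B _ => h1 B]
  have h2 : ∀ B : Subgroup (N ≃ₐ[K] N), B ∈ Finset.univ.filter (fun B => n B ≠ 0) ↔ n B ≠ 0 := by
    intro B
    simp
  rw [← Finset.sum_subtype (Finset.univ.filter (fun B => n B ≠ 0)) h2
    (fun B => n B * (fixn K (IntermediateField.fixedField B) σ : ℤ))]
  rw [Finset.sum_filter_of_ne]
  intro B _ hB h3
  apply hB
  rw [h3, zero_mul]

end

end Pool.Agent.Q5.HR
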