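import Mathlib

/-! Points with abscissa in `K` of large height are not torsion, over any extension. -/

set_option autoImplicit false

namespace Pool.Agent.Q5.HR

open WeierstrassCurve Height MvPolynomial
open scoped Classical

section
variable {K : Type} [Field K] (W : WeierstrassCurve K)

/-- the numerator of the duplication formula -/
def phi (x : K) : K := x ^ 4 - W.b₄ * x ^ 2 - 2 * W.b₆ * x - W.b₈

/-- the denominator of the duplication formula; `psi x = (2 y + a₁ x + a₃) ^ 2` -/
def psi (x : K) : K := 4 * x ^ 3 + W.b₂ * x ^ 2 + 2 * W.b₄ * x + W.b₆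

/-- the duplication formula in the heights -/
theorem dup_height [NumberField K] [W.IsElliptic] :
    ∃ C : ℝ, ∀ x : K, |logHeight ![phi W x, psi W x] - 4 * logHeight₁ x| ≤ C := by
  obtain ⟨C₁, h₁⟩ := abs_logHeight_addSubMap_sub_two_mul_logHeight_le W
  obtain ⟨C₂, h₂⟩ := abs_logHeight_sym2_sub_le K
  refine ⟨C₁ + 3 * C₂, fun x => ?_⟩
  have e1 := h₁ ![x * x, x * 1 + 1 * x, 1 * 1]
  have hx : ![x, (1 : K)] ≠ 0 := fun h => one_ne_zero (congrFun h 1)
  have e2 := h₂ hx hx
  have hval : (fun i => (addSubMap W i).eval ![x * x, x * 1 + 1 * x, 1 * 1]) =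
      ![phi W x * 1, phi W x * 0 + psi W x * 1, psi W x * 0] := by
    ext i
    fin_cases i
    · simp [addSubMap, phi]
      ring
    · simp [addSubMap, psi]
      ring
    · simp [addSubMap]
      ring
  rw [hval] at e1
  have hne : ![phi W x, psi W x] ≠ 0 := by
    intro h
    have h3 : ![x * x, x * 1 + 1 * x, (1 : K) * 1] ≠ 0 := fun h => by
      have := congrFun h 2
      simp at this
    apply addSubMap_ne_zero W h3
    rw [hval]
    have h4 : phi W x = 0 := congrFun h 0
    have h5 : psi W x = 0 := congrFun h 1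
    rw [h4, h5]
    ext i
    fin_cases i <;> simp
  have h10 : ![(1 : K), 0] ≠ 0 := fun h => one_ne_zero (congrFun h 0)
  have e3 := h₂ hne h10
  have h0 : logHeight ![(1 : K), 0] = 0 := by
    rw [logHeight_swap, ← logHeight₁_zero (K := K), logHeight₁_eq_logHeight]
  rw [h0, add_zero] at e3
  rw [← logHeight₁_eq_logHeight] at e2
  rw [abs_le] at e1 e2 e3 ⊢
  have hC₂ : 0 ≤ C₂ := by linarith [e3.1, e3.2]
  constructor <;> linarith [e1.1, e1.2, e2.1, e2.2, e3.1, e3.2]

end

section
variable {L : Type} [Field L] {E : WeierstrassCurve L}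

theorem psi_eq {x y : L} (h : E.toAffine.Equation x y) :
    psi E x = (2 * y + E.a₁ * x + E.a₃) ^ 2 := by
  have h1 := (Affine.equation_iff x y).1 h
  unfold psi
  simp only [b₂, b₄, b₆]
  linear_combination (-4) * h1

/-- the duplication formula -/
theorem two_smul_point {x y : L} (h : E.toAffine.Nonsingular x y) (hpsi : psi E x ≠ 0) :
    ∃ (y' : L) (h' : E.toAffine.Nonsingular (phi E x / psi E x) y'),
      Affine.Point.some _ _ h + Affine.Point.some _ _ h = Affine.Point.some _ _ h' := by
  have hps := psi_eq h.1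
  have hη : 2 * y + E.a₁ * x + E.a₃ ≠ 0 := by
    intro h0
    apply hpsi
    rw [hps, h0]
    ring
  have hy : y ≠ E.toAffine.negY x y := by
    intro h0
    apply hη
    rw [Affine.negY] at h0
    linear_combination h0
  have hxx : E.toAffine.addX x x (E.toAffine.slope x x y y) = phi E x / psi E x := by
    rw [Affine.slope_of_Y_ne rfl hy, Affine.addX]
    have h1 := (Affine.equation_iff x y).1 h.1
    have hd : y - E.toAffine.negY x y = 2 * y + E.a₁ * x + E.a₃ := by rw [Affine.negY]; ring
    rw [hps, hd, eq_div_iff (pow_ne_zero 2 hη)]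
    set l : L := (3 * x ^ 2 + 2 * E.a₂ * x + E.a₄ - E.a₁ * y) / (2 * y + E.a₁ * x + E.a₃) with hl
    have hl' : l * (2 * y + E.a₁ * x + E.a₃) = 3 * x ^ 2 + 2 * E.a₂ * x + E.a₄ - E.a₁ * y :=
      div_mul_cancel₀ _ hη
    change (l ^ 2 + E.a₁ * l - E.a₂ - x - x) * (2 * y + E.a₁ * x + E.a₃) ^ 2 = _
    unfold phi
    simp only [b₄, b₆, b₈]
    linear_combination (l * (2 * y + E.a₁ * x + E.a₃) + (3 * x ^ 2 + 2 * E.a₂ * x + E.a₄ - E.a₁ * y)
      + E.a₁ * (2 * y + E.a₁ * x + E.a₃)) * hl' + (-(E.a₁ ^ 2 + 4 * E.a₂ + 8 * x)) * h1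
  have hadd := Affine.Point.add_self_of_Y_ne (h₁ := h) hy
  have h2 := Affine.nonsingular_add h h fun hxy => hy hxy.2
  rw [hxx] at h2
  refine ⟨_, h2, ?_⟩
  rw [hadd]
  congr 1

end

section
variable {K : Type} [Field K] {W : WeierstrassCurve K}

theorem phi_map {L : Type} [Field L] [Algebra K L] (a : K) :
    phi (W.baseChange L) (algebraMap K L a) = algebraMap K L (phi W a) := by
  have hb4 : algebraMap K L W.b₄ = (W.baseChange L).b₄ := (map_b₄ W (algebraMap K L)).symm
  have hb6 : algebraMap K L W.b₆ = (W.baseChange L).b₆ := (map_b₆ W (algebraMap K L)).symm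
  have hb8 : algebraMap K L W.b₈ = (W.baseChange L).b₈ := (map_b₈ W (algebraMap K L)).symm
  unfold phi
  simp only [map_sub, map_mul, map_pow, map_ofNat, hb4, hb6, hb8]

theorem psi_map {L : Type} [Field L] [Algebra K L] (a : K) :
    psi (W.baseChange L) (algebraMap K L a) = algebraMap K L (psi W a) := by
  have hb2 : algebraMap K L W.b₂ = (W.baseChange L).b₂ := (map_b₂ W (algebraMap K L)).symm
  have hb4 : algebraMap K L W.b₄ = (W.baseChange L).b₄ := (map_b₄ W (algebraMap K L)).symm
  have hb6 : algebraMap K L W.b₆ = (W.baseChange L).b₆ := (map_b₆ W (algebraMap K L)).symm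
  unfold psi
  simp only [map_add, map_mul, map_pow, map_ofNat, hb2, hb4, hb6]

/-- **Points with abscissa in `K` outside a finite set are not torsion.** -/
theorem nontorsion [NumberField K] [W.IsElliptic] : ∃ T : Set K, T.Finite ∧ ∀ a ∉ T,
    ∀ (L : Type) [Field L] [Algebra K L] (y : L)
      (h : (W.baseChange L).toAffine.Nonsingular (algebraMap K L a) y),
      ¬ IsOfFinAddOrder (Affine.Point.some _ _ h) := by
  obtain ⟨C, hC⟩ := dup_height W
  have hC0 : 0 ≤ C := (abs_nonneg _).trans (hC 0)
  refine ⟨{x : K | logHeight₁ x ≤ C}, NumberField.finite_setOfPred_logHeight₁_le K C, ?_⟩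
  intro a ha L _ _ y h hfin
  set Good : (W.baseChange L).toAffine.Point → ℝ → Prop := fun Q H =>
    ∃ (b : K) (z : L) (h' : (W.baseChange L).toAffine.Nonsingular (algebraMap K L b) z),
      Q = Affine.Point.some _ _ h' ∧ logHeight₁ b = H ∧ C < H with hGood
  have step : ∀ Q H, Good Q H → ∃ H', H < H' ∧ Good (Q + Q) H' := by
    rintro Q H ⟨b, z, h', rfl, rfl, hH⟩
    have e := hC b
    rw [abs_le] at e
    have hpsi : psi W b ≠ 0 := by
      intro h0
      rw [h0] at e
      have hphi : phi W b ≠ 0 := by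
        intro h1
        rw [h1] at e
        have h2 : logHeight ![(0 : K), 0] = 0 := by
          have : ![(0 : K), 0] = 0 := by ext i; fin_cases i <;> rfl
          rw [this, logHeight_zero]
        rw [h2] at e
        linarith [e.1]
      have h3 : logHeight ![phi W b, 0] = 0 := by
        have h4 : ![phi W b, (0 : K)] = (phi W b) • ![(1 : K), 0] := by
          ext i
          fin_cases i <;> simp
        rw [h4, logHeight_smul_eq_logHeight _ hphi, logHeight_swap, ← logHeight₁_zero (K := K),
          logHeight₁_eq_logHeight]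
      rw [h3] at e
      linarith [e.1]
    have hpsi' : psi (W.baseChange L) (algebraMap K L b) ≠ 0 := by
      rw [psi_map]
      exact fun h0 => hpsi ((map_eq_zero_iff _ (algebraMap K L).injective).1 h0)
    obtain ⟨y', h'', hadd⟩ := two_smul_point h' hpsi'
    have hx : phi (W.baseChange L) (algebraMap K L b) / psi (W.baseChange L) (algebraMap K L b) =
        algebraMap K L (phi W b / psi W b) := by
      rw [phi_map, psi_map, map_div₀]
    have hval : logHeight₁ (phi W b / psi W b) = logHeight ![phi W b, psi W b] :=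
      logHeight₁_div_eq_logHeight _ _
    refine ⟨logHeight₁ (phi W b / psi W b), ?_, phi W b / psi W b, y', hx ▸ h'', ?_, rfl, ?_⟩
    · rw [hval]
      linarith [e.1]
    · rw [hadd]
      congr 1
    · rw [hval]
      linarith [e.1]
  have h0 : Good (Affine.Point.some _ _ h) (logHeight₁ a) := ⟨a, y, h, rfl, rfl, not_le.1 ha⟩
  have hseq : ∀ k : ℕ, ∃ H, Good ((2 ^ k : ℕ) • Affine.Point.some _ _ h) H := by
    intro k
    induction k with
    | zero => exact ⟨_, by simpa using h0⟩
    | succ k ih =>
      obtain ⟨H, hH⟩ := ih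
      obtain ⟨H', _, hH'⟩ := step _ _ hH
      refine ⟨H', ?_⟩
      rw [pow_succ, mul_two, add_smul]
      exact hH'
  choose f hf using hseq
  have huniq : ∀ Q H H', Good Q H → Good Q H' → H = H' := by
    rintro Q H H' ⟨b, z, h', rfl, rfl, -⟩ ⟨c, z', h'', he, rfl, -⟩
    have h1 := (Affine.Point.some.inj he).1
    rw [(algebraMap K L).injective h1]
  have hmono : StrictMono f := by
    refine strictMono_nat_of_lt_succ fun k => ?_
    obtain ⟨H', hlt, hH'⟩ := step _ _ (hf k)
    have h1 := hf (k + 1)
    rw [pow_succ, mul_two, add_smul] at h1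
    rw [huniq _ _ _ h1 hH']
    exact hlt
  have hfin2 : (AddSubgroup.zmultiples (Affine.Point.some _ _ h) :
      Set (W.baseChange L).toAffine.Point).Finite := finite_zmultiples.2 hfin
  have hinj : Function.Injective fun k : ℕ => ((2 ^ k : ℕ) • Affine.Point.some _ _ h) := by
    intro i j hij
    apply hmono.injective
    have h1 := hf i
    change (2 ^ i : ℕ) • Affine.Point.some _ _ h = (2 ^ j : ℕ) • Affine.Point.some _ _ h at hij
    rw [hij] at h1
    exact huniq _ _ _ h1 (hf j)
  refine (Set.infinite_range_of_injective hinj) (hfin2.subset ?_)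
  rintro _ ⟨k, rfl⟩
  exact AddSubgroup.nsmul_mem_zmultiples _ _

end

end Pool.Agent.Q5.HR
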