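import Mathlib

/-! Finitely many square classes of `K` become trivial in a finite extension. -/

set_option autoImplicit false

namespace Pool.Agent.Q5.HR

section
variable {K : Type} [Field K] [CharZero K]

/-- the quadratic character of a square root -/
noncomputable def chi {z : K} {y : AlgebraicClosure K} (hz : z ≠ 0)
    (hy : y ^ 2 = algebraMap K (AlgebraicClosure K) z) :
    (AlgebraicClosure K ≃ₐ[K] AlgebraicClosure K) →* AlgebraicClosure K :=
  have hy0 : y ≠ 0 := by
    rintro rfl
    rw [zero_pow two_ne_zero, eq_comm, map_eq_zero_iff _ (algebraMap K _).injective] at hy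
    exact hz hy
  have hpm : ∀ σ : AlgebraicClosure K ≃ₐ[K] AlgebraicClosure K, σ y = y ∨ σ y = -y := by
    intro σ
    have h1 : (σ y) ^ 2 = y ^ 2 := by rw [← map_pow, hy, AlgEquiv.commutes]
    exact sq_eq_sq_iff_eq_or_eq_neg.1 h1
  { toFun := fun σ => σ y / y
    map_one' := div_self hy0
    map_mul' := fun σ τ => by
      rcases hpm τ with h | h
      · rw [AlgEquiv.mul_apply, h, div_self hy0, mul_one]
      · rw [AlgEquiv.mul_apply, h, map_neg, neg_div, neg_div, div_self hy0]
        ring }

theorem linInd {n : ℕ} {z : Fin n → K} {y : Fin n → AlgebraicClosure K} (hz : ∀ i, z i ≠ 0)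
    (hy : ∀ i, y i ^ 2 = algebraMap K (AlgebraicClosure K) (z i))
    (hne : ∀ i j, i ≠ j → ¬ IsSquare (z i * z j)) : LinearIndependent K y := by
  have hy0 : ∀ i, y i ≠ 0 := by
    intro i h
    have h1 := hy i
    rw [h, zero_pow two_ne_zero, eq_comm, map_eq_zero_iff _ (algebraMap K _).injective] at h1
    exact hz i h1
  have hinj : Function.Injective fun i => chi (hz i) (hy i) := by
    intro i j hij
    by_contra hne'
    apply hne i j hne'
    have h1 : ∀ σ : AlgebraicClosure K ≃ₐ[K] AlgebraicClosure K, σ (y i * y j) = y i * y j := by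
      intro σ
      have h2 : σ (y i) / y i = σ (y j) / y j := DFunLike.congr_fun hij σ
      have h3 : (σ (y j)) ^ 2 = y j ^ 2 := by rw [← map_pow, hy, AlgEquiv.commutes]
      have h4 : σ (y i) = σ (y j) / y j * y i := by
        rw [← h2, div_mul_cancel₀ _ (hy0 i)]
      rw [map_mul, h4]
      have h5 := hy0 j
      field_simp
      rw [h3]
    have h2 : y i * y j ∈ (⊥ : IntermediateField K (AlgebraicClosure K)) := by
      rw [← InfiniteGalois.fixedField_bot, IntermediateField.mem_fixedField_iff]
      intro σ _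
      exact h1 σ
    obtain ⟨c, hc⟩ := IntermediateField.mem_bot.1 h2
    refine ⟨c, ?_⟩
    apply (algebraMap K (AlgebraicClosure K)).injective
    rw [map_mul, map_mul, hc, ← hy, ← hy]
    ring
  have hli := (linearIndependent_monoidHom (AlgebraicClosure K ≃ₐ[K] AlgebraicClosure K)
    (AlgebraicClosure K)).comp _ hinj
  rw [Fintype.linearIndependent_iff] at hli ⊢
  intro a ha i
  have h1 := hli (fun i => algebraMap K _ (a i) * y i) (by
    funext σ
    have h2 := congrArg σ ha
    rw [map_sum, map_zero] at h2
    rw [Finset.sum_apply, Pi.zero_apply, ← h2]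
    refine Finset.sum_congr rfl fun i _ => ?_
    change algebraMap K _ (a i) * y i * (σ (y i) / y i) = σ (a i • y i)
    rw [mul_assoc, mul_div_cancel₀ _ (hy0 i), Algebra.smul_def, map_mul, AlgEquiv.commutes]) i
  have h2 := (mul_eq_zero.1 h1).resolve_right (hy0 i)
  exact (map_eq_zero_iff _ (algebraMap K (AlgebraicClosure K)).injective).1 h2

/-- **Finitely many classes.** -/
theorem finite_classes (N : IntermediateField K (AlgebraicClosure K)) [FiniteDimensional K N] :
    ∃ D : Set K, D.Finite ∧ (∀ d ∈ D, d ≠ 0) ∧ ∀ z : K, z ≠ 0 →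
      (∃ y ∈ N, y ^ 2 = algebraMap K (AlgebraicClosure K) z) → ∃ d ∈ D, ∃ c : K, z = d * c ^ 2 := by
  by_contra hcon
  push Not at hcon
  have key : ∀ n : ℕ, ∃ (z : Fin n → K) (y : Fin n → AlgebraicClosure K), (∀ i, z i ≠ 0) ∧
      (∀ i, y i ∈ N) ∧ (∀ i, y i ^ 2 = algebraMap K (AlgebraicClosure K) (z i)) ∧
      ∀ i j, i ≠ j → ¬ IsSquare (z i * z j) := by
    intro n
    induction n with
    | zero => exact ⟨Fin.elim0, Fin.elim0, fun i => i.elim0, fun i => i.elim0, fun i => i.elim0,
        fun i => i.elim0⟩
    | succ n ih =>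
      obtain ⟨z, y, h1, h2, h3, h4⟩ := ih
      obtain ⟨z', hz', ⟨y', hy'N, hy'⟩, hnew⟩ := hcon (Set.range z) (Set.finite_range z) (by
        rintro _ ⟨i, rfl⟩
        exact h1 i)
      have h5 : ∀ i, ¬ IsSquare (z i * z') := by
        rintro i ⟨e, he⟩
        apply hnew (z i) ⟨i, rfl⟩ (e / z i)
        have := h1 i
        field_simp
        linear_combination he
      refine ⟨Fin.snoc z z', Fin.snoc y y', ?_, ?_, ?_, ?_⟩
      · intro i
        refine Fin.lastCases ?_ (fun i => ?_) i
        · rwa [Fin.snoc_last]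
        · rw [Fin.snoc_castSucc]; exact h1 i
      · intro i
        refine Fin.lastCases ?_ (fun i => ?_) i
        · rwa [Fin.snoc_last]
        · rw [Fin.snoc_castSucc]; exact h2 i
      · intro i
        refine Fin.lastCases ?_ (fun i => ?_) i
        · rwa [Fin.snoc_last, Fin.snoc_last]
        · rw [Fin.snoc_castSucc, Fin.snoc_castSucc]; exact h3 i
      · intro i j
        refine Fin.lastCases ?_ (fun i => ?_) i <;> refine Fin.lastCases ?_ (fun j => ?_) j
        · intro h; exact absurd rfl h
        · intro _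
          rw [Fin.snoc_last, Fin.snoc_castSucc, mul_comm]
          exact h5 j
        · intro _
          rw [Fin.snoc_last, Fin.snoc_castSucc]
          exact h5 i
        · intro h
          rw [Fin.snoc_castSucc, Fin.snoc_castSucc]
          exact h4 i j fun h' => h (by rw [h'])
  obtain ⟨z, y, h1, h2, h3, h4⟩ := key (Module.finrank K N + 1)
  have hli := linInd h1 h3 h4
  have hli' : LinearIndependent K (fun i => (⟨y i, h2 i⟩ : N)) :=
    LinearIndependent.of_comp N.val.toLinearMap hli
  have h5 := hli'.fintype_card_le_finrank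
  rw [Fintype.card_fin] at h5
  omega

end

end Pool.Agent.Q5.HR
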