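import Pool.Agent.H26.Lib.R_pool_sql_team_seeded_3997aac3.Q5.HR.Triple
import Pool.Agent.H26.Lib.R_pool_sql_team_seeded_3997aac3.Q5.HR.Sq
import Pool.Agent.H26.Lib.R_pool_sql_team_seeded_3997aac3.Q5.BR.Bsd

/-! Multiquadratic extensions such that the rank over all fixed fields of one automorphism is large. -/

set_option autoImplicit false
set_option linter.unusedSectionVars false

namespace Pool.Agent.Q5.HR

open WeierstrassCurve NumberField Pool.Agent.W353.NF Pool.Agent.W401.Cheb Pool.Agent.Q5.BR
open scoped Classical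

section
variable {K : Type} [Field K] [NumberField K]

/-- the field fixed by one automorphism -/
noncomputable def fx (σ : GK K) : IntermediateField K (AlgebraicClosure K) :=
  IntermediateField.fixedField (Subgroup.zpowers σ)

theorem mem_fx {σ : GK K} {x : AlgebraicClosure K} : x ∈ fx σ ↔ σ x = x := by
  unfold fx
  rw [IntermediateField.mem_fixedField_iff]
  constructor
  · intro h
    exact h σ (Subgroup.mem_zpowers σ)
  · intro h τ hτ
    obtain ⟨n, rfl⟩ := hτ
    have h1 : ∀ n : ℕ, (σ ^ n) x = x := by
      intro n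
      induction n with
      | zero => rfl
      | succ n ih => rw [pow_succ, AlgEquiv.mul_apply, h, ih]
    rcases Int.eq_nat_or_neg n with ⟨m, rfl | rfl⟩
    · change (σ ^ (m : ℤ)) x = x
      rw [zpow_natCast]
      exact h1 m
    · change (σ ^ (-(m : ℤ))) x = x
      rw [zpow_neg, zpow_natCast]
      have h2 : (σ ^ m)⁻¹ ((σ ^ m) x) = (σ ^ m)⁻¹ x := by rw [h1 m]
      rw [← AlgEquiv.mul_apply, inv_mul_cancel] at h2
      exact h2.symm

/-- generated by square roots -/
def MQ (N : IntermediateField K (AlgebraicClosure K)) : Prop :=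
  ∃ S : Set (AlgebraicClosure K), S.Finite ∧
    (∀ η ∈ S, ∃ c : K, η ^ 2 = algebraMap K (AlgebraicClosure K) c) ∧
    N = IntermediateField.adjoin K S

theorem MQ.fd {N : IntermediateField K (AlgebraicClosure K)} (h : MQ N) : FiniteDimensional K N := by
  obtain ⟨S, hS, hS', rfl⟩ := h
  have := hS.to_subtype
  exact IntermediateField.finiteDimensional_adjoin fun x _ => Algebra.IsIntegral.isIntegral x

theorem rk_le {W : WeierstrassCurve K} (hW : W.IsElliptic) {F F' : Type} [Field F] [Field F']
    [NumberField F] [Algebra K F] [Algebra K F'] (f : F' →ₐ[K] F) :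
    rk (W.baseChange F') ≤ rk (W.baseChange F) := by
  have hfg : AddGroup.FG (W.baseChange F).toAffine.Point := by
    refine Pool.Agent.Q286.EQ.mordell_weil F _ ?_
    change (W.map (algebraMap K F)).Δ ≠ 0
    rw [WeierstrassCurve.map_Δ]
    intro h
    exact W.isUnit_Δ.ne_zero ((map_eq_zero_iff _ (algebraMap K F).injective).1 h)
  have hfin : Module.Finite ℤ (W.baseChange F).toAffine.Point :=
    Module.Finite.iff_addGroup_fg.2 hfg
  exact LinearMap.finrank_le_finrank_of_injective
    (f := (Affine.Point.map (W' := W.toAffine) f).toIntLinearMap)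
    (Affine.Point.map_injective (W' := W.toAffine) f)

theorem some_eq {L : Type} [Field L] {E : WeierstrassCurve L} {x x' y y' : L}
    (h : E.toAffine.Nonsingular x y) (hx : x = x') (hy : y = y') :
    ∃ h' : E.toAffine.Nonsingular x' y', Affine.Point.some x y h = Affine.Point.some x' y' h' := by
  subst hx hy
  exact ⟨h, rfl⟩

/-- **A new point.** -/
theorem rk_succ {W : WeierstrassCurve K} (hW : W.IsElliptic) {F' F : Type} [Field F'] [Field F]
    [NumberField F] [Algebra K F'] [Algebra K F] (incl : F' →ₐ[K] F)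
    (jF : F →ₐ[K] AlgebraicClosure K) {N' : IntermediateField K (AlgebraicClosure K)}
    (hF' : ∀ z : F', jF (incl z) ∈ N') {a : K} {η : F}
    (hη : η ^ 2 = algebraMap K F (psi W a)) (hηN : jF η ∉ N')
    (hnt : ∀ (L : Type) [Field L] [Algebra K L] (y : L)
      (h : (W.baseChange L).toAffine.Nonsingular (algebraMap K L a) y),
      ¬ IsOfFinAddOrder (Affine.Point.some _ _ h)) :
    rk (W.baseChange F') + 1 ≤ rk (W.baseChange F) := by
  have hfg : AddGroup.FG (W.baseChange F).toAffine.Point := by
    refine Pool.Agent.Q286.EQ.mordell_weil F _ ?_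
    change (W.map (algebraMap K F)).Δ ≠ 0
    rw [WeierstrassCurve.map_Δ]
    intro h
    exact W.isUnit_Δ.ne_zero ((map_eq_zero_iff _ (algebraMap K F).injective).1 h)
  have hfin : Module.Finite ℤ (W.baseChange F).toAffine.Point :=
    Module.Finite.iff_addGroup_fg.2 hfg
  -- the point
  set y : F := (η - (W.baseChange F).a₁ * algebraMap K F a - (W.baseChange F).a₃) / 2 with hy
  have h20 : (2 : F) ≠ 0 := two_ne_zero
  have hη2 : η ^ 2 = psi (W.baseChange F) (algebraMap K F a) := by
    rw [psi_map]
    exact hη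
  have h2y : 2 * y + (W.baseChange F).a₁ * algebraMap K F a + (W.baseChange F).a₃ = η := by
    rw [hy]
    field_simp
    ring
  have heq : (W.baseChange F).toAffine.Equation (algebraMap K F a) y := by
    rw [Affine.equation_iff]
    have h1 : (2 * y + (W.baseChange F).a₁ * algebraMap K F a + (W.baseChange F).a₃) ^ 2 =
        psi (W.baseChange F) (algebraMap K F a) := by rw [h2y, hη2]
    have h4 : (4 : F) ≠ 0 := by norm_num
    apply mul_left_cancel₀ h4
    unfold psi at h1
    simp only [b₂, b₄, b₆] at h1
    linear_combination h1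
  have hell : (W.baseChange F).IsElliptic := by
    change (W.map (algebraMap K F)).IsElliptic
    infer_instance
  have hns : (W.baseChange F).toAffine.Nonsingular (algebraMap K F a) y :=
    Affine.equation_iff_nonsingular.1 heq
  set P : (W.baseChange F).toAffine.Point := .some _ _ hns with hP
  -- the automorphism
  have hη3 : (jF η) ^ 2 = algebraMap K (AlgebraicClosure K) (psi W a) := by
    rw [← map_pow, hη, AlgHom.commutes]
  obtain ⟨τ, hτN, hτη⟩ : ∃ τ : GK K, τ ∈ N'.fixingSubgroup ∧ τ (jF η) ≠ jF η := by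
    by_contra hcon
    push Not at hcon
    apply hηN
    rw [← InfiniteGalois.fixedField_fixingSubgroup N', IntermediateField.mem_fixedField_iff]
    exact hcon
  have hτη' : τ (jF η) = -jF η := by
    have h1 : (τ (jF η)) ^ 2 = (jF η) ^ 2 := by rw [← map_pow, hη3, AlgEquiv.commutes]
    exact (sq_eq_sq_iff_eq_or_eq_neg.1 h1).resolve_left hτη
  -- independence
  obtain ⟨f, hf⟩ := exists_linearIndependent_of_le_finrank (R := ℤ)
    (M := (W.baseChange F').toAffine.Point) (n := rk (W.baseChange F')) (le_refl _)
  set i₀ := (Affine.Point.map (W' := W.toAffine) incl).toIntLinearMap with hi₀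
  have hi₀inj : Function.Injective i₀ := Affine.Point.map_injective (W' := W.toAffine) incl
  have hv : LinearIndependent ℤ (fun k => i₀ (f k)) := hf.map' i₀ (LinearMap.ker_eq_bot.2 hi₀inj)
  have hcons := LinearIndependent.finCons' P _ hv (by
    intro c z hz hsum
    have hz' : z ∈ LinearMap.range i₀ := by
      refine Submodule.span_le.2 ?_ hz
      rintro _ ⟨k, rfl⟩
      exact ⟨_, rfl⟩
    obtain ⟨Q, rfl⟩ := hz'
    set j := Affine.Point.map (W' := W.toAffine) jF with hj
    set t := Affine.Point.map (W' := W.toAffine)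
      (τ : AlgebraicClosure K →ₐ[K] AlgebraicClosure K) with ht
    have h1 : c • j P + j (i₀ Q) = 0 := by
      rw [← map_zsmul, ← map_add, hsum, map_zero]
    have h2 : t (j (i₀ Q)) = j (i₀ Q) := by
      have h20 : ((τ : AlgebraicClosure K →ₐ[K] AlgebraicClosure K).comp jF).comp incl =
          jF.comp incl := by
        apply AlgHom.ext
        intro z
        exact hτN ⟨_, hF' z⟩
      change Affine.Point.map (W' := W.toAffine) _ (Affine.Point.map (W' := W.toAffine) jF
        (Affine.Point.map (W' := W.toAffine) incl Q)) = Affine.Point.map (W' := W.toAffine) jF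
        (Affine.Point.map (W' := W.toAffine) incl Q)
      rw [Affine.Point.map_map, Affine.Point.map_map, h20, Affine.Point.map_map]
    obtain ⟨hns', hjP⟩ : ∃ h' : (W.baseChange (AlgebraicClosure K)).toAffine.Nonsingular
        (algebraMap K (AlgebraicClosure K) a) (jF y), j P = Affine.Point.some _ _ h' := by
      rw [hj, hP, Affine.Point.map_some]
      exact some_eq _ (jF.commutes a) rfl
    have h3 : t (j P) = - j P := by
      rw [hjP, ht, Affine.Point.map_some, Affine.Point.neg_some]
      have hyy : τ (jF y) = (W.baseChange (AlgebraicClosure K)).toAffine.negY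
          (algebraMap K (AlgebraicClosure K) a) (jF y) := by
        rw [Affine.negY]
        have e1 : jF y = (jF η - algebraMap K (AlgebraicClosure K) W.a₁ *
            algebraMap K (AlgebraicClosure K) a - algebraMap K (AlgebraicClosure K) W.a₃) / 2 := by
          rw [hy, map_div₀, map_sub, map_sub, map_mul, map_ofNat]
          change (jF η - jF (algebraMap K F W.a₁) * jF (algebraMap K F a) -
            jF (algebraMap K F W.a₃)) / 2 = _
          rw [AlgHom.commutes, AlgHom.commutes, AlgHom.commutes]
        have e2 : τ (jF y) = (-jF η - algebraMap K (AlgebraicClosure K) W.a₁ *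
            algebraMap K (AlgebraicClosure K) a - algebraMap K (AlgebraicClosure K) W.a₃) / 2 := by
          rw [e1, map_div₀, map_sub, map_sub, map_mul, map_ofNat, hτη', AlgEquiv.commutes,
            AlgEquiv.commutes, AlgEquiv.commutes]
        rw [e2]
        change _ = -jF y - algebraMap K (AlgebraicClosure K) W.a₁ *
          algebraMap K (AlgebraicClosure K) a - algebraMap K (AlgebraicClosure K) W.a₃
        rw [e1]
        field_simp
        ring
      exact (some_eq _ (τ.commutes a) hyy).choose_spec
    have h4 := congrArg t h1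
    rw [map_add, map_zsmul, map_zero, h2, h3, smul_neg] at h4
    have h5 : (2 * c) • j P = 0 := by
      have h6 : c • j P + j (i₀ Q) - (-(c • j P) + j (i₀ Q)) = 0 := by rw [h1, h4, sub_zero]
      rw [← h6]
      rw [two_mul, add_smul]
      abel
    by_contra hc
    have h7 : ¬ IsOfFinAddOrder (j P) := by
      rw [hjP]
      exact hnt (AlgebraicClosure K) _ hns'
    apply h7
    rw [isOfFinAddOrder_iff_zsmul_eq_zero]
    exact ⟨2 * c, by omega, h5⟩)
  have h8 := hcons.fintype_card_le_finrank
  rw [Fintype.card_fin] at h8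
  exact h8

/-- **The tower.** -/
theorem tower {W : WeierstrassCurve K} (hW : W.IsElliptic) (h4 : W.c₄ ≠ 0) (h6 : W.c₆ ≠ 0)
    (R : ℕ) : ∃ N : IntermediateField K (AlgebraicClosure K), MQ N ∧
      ∀ σ : GK K, R ≤ rk (W.baseChange (N ⊓ fx σ : IntermediateField K (AlgebraicClosure K))) := by
  induction R with
  | zero =>
    exact ⟨_, ⟨∅, Set.finite_empty, fun η hη => absurd hη (Set.notMem_empty η), rfl⟩,
      fun σ => Nat.zero_le _⟩
  | succ R ih =>
    obtain ⟨N', hN', hR⟩ := ih
    have hfd := hN'.fd
    obtain ⟨S, hS, hS', hNS⟩ := hN'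
    obtain ⟨T, hT, hnt⟩ := nontorsion (W := W)
    obtain ⟨D, hD, hD0, hcl⟩ := finite_classes N'
    obtain ⟨x, hx1, hx2, hx3, e, he⟩ := exists_triple h4 h6 hT hD hD0
    have hsq : ∀ i, ∃ η : AlgebraicClosure K, η ^ 2 = algebraMap K (AlgebraicClosure K)
        (psi W (x i)) := fun i => IsAlgClosed.exists_pow_nat_eq _ two_pos
    choose η hη using hsq
    have hηN : ∀ i, η i ∉ N' := by
      intro i hi
      obtain ⟨d, hd, c, hc⟩ := hcl (psi W (x i)) (hx1 i) ⟨η i, hi, hη i⟩
      exact hx3 i d hd c hc
    have hη0 : ∀ i, η i ≠ 0 := fun i h => hηN i (h ▸ N'.zero_mem)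
    set N : IntermediateField K (AlgebraicClosure K) :=
      IntermediateField.adjoin K (S ∪ Set.range η) with hN
    have hMQ : MQ N := by
      refine ⟨S ∪ Set.range η, hS.union (Set.finite_range η), ?_, rfl⟩
      rintro z (hz | ⟨i, rfl⟩)
      · exact hS' z hz
      · exact ⟨_, hη i⟩
    have hle : N' ≤ N := by
      rw [hNS]
      exact IntermediateField.adjoin.mono K _ _ Set.subset_union_left
    have hηmem : ∀ i, η i ∈ N := fun i =>
      IntermediateField.subset_adjoin K _ (Or.inr ⟨i, rfl⟩)
    refine ⟨N, hMQ, fun σ => ?_⟩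
    -- one of the three square roots is fixed
    obtain ⟨i, hi⟩ : ∃ i, σ (η i) = η i := by
      by_contra hcon
      push Not at hcon
      have hneg : ∀ i, σ (η i) = -η i := by
        intro i
        have h1 : (σ (η i)) ^ 2 = (η i) ^ 2 := by rw [← map_pow, hη, AlgEquiv.commutes]
        exact (sq_eq_sq_iff_eq_or_eq_neg.1 h1).resolve_left (hcon i)
      have h1 : (∏ i, η i) ^ 2 = (algebraMap K (AlgebraicClosure K) e) ^ 2 := by
        rw [← Finset.prod_pow, ← map_pow, he, map_prod]
        exact Finset.prod_congr rfl fun i _ => hη i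
      have h2 : σ (∏ i, η i) = ∏ i, η i := by
        rcases sq_eq_sq_iff_eq_or_eq_neg.1 h1 with h | h
        · rw [h, AlgEquiv.commutes]
        · rw [h, map_neg, AlgEquiv.commutes]
      rw [map_prod, Fin.prod_univ_three, Fin.prod_univ_three, hneg, hneg, hneg] at h2
      have h3 : (2 : AlgebraicClosure K) * (η 0 * η 1 * η 2) = 0 := by linear_combination -h2
      have h4 : η 0 * η 1 * η 2 ≠ 0 := mul_ne_zero (mul_ne_zero (hη0 0) (hη0 1)) (hη0 2)
      exact h4 ((mul_eq_zero.1 h3).resolve_left two_ne_zero)
    have hfdN := hMQ.fd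
    have hfdF : FiniteDimensional K (N ⊓ fx σ : IntermediateField K (AlgebraicClosure K)) :=
      FiniteDimensional.of_injective (IntermediateField.inclusion
        (inf_le_left : N ⊓ fx σ ≤ N)).toLinearMap
        (IntermediateField.inclusion (inf_le_left : N ⊓ fx σ ≤ N)).injective
    have hnf : NumberField (N ⊓ fx σ : IntermediateField K (AlgebraicClosure K)) :=
      NumberField.of_module_finite K _
    have hle' : N' ⊓ fx σ ≤ N ⊓ fx σ := inf_le_inf_right _ hle
    have hmem : η i ∈ N ⊓ fx σ := ⟨hηmem i, mem_fx.2 hi⟩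
    refine (Nat.succ_le_succ (hR σ)).trans ?_
    refine rk_succ hW (IntermediateField.inclusion hle') (N ⊓ fx σ).val (N' := N')
      (fun z => z.2.1) (a := x i) (η := ⟨η i, hmem⟩) ?_ (hηN i) (hnt (x i) (hx2 i))
    apply Subtype.ext
    exact hη i

/-- multiquadratic extensions -/
def Multiquadratic (K F : Type) [Field K] [Field F] [Algebra K F] : Prop :=
  IsGalois K F ∧ ∀ g : F ≃ₐ[K] F, g * g = 1

theorem MQ.normal {N : IntermediateField K (AlgebraicClosure K)} (h : MQ N) : Normal K N := by
  obtain ⟨S, hS, hS', rfl⟩ := h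
  rw [IntermediateField.normal_iff_forall_map_le]
  intro σ
  rw [IntermediateField.adjoin_map, IntermediateField.adjoin_le_iff]
  rintro _ ⟨η, hη, rfl⟩
  obtain ⟨c, hc⟩ := hS' η hη
  have h1 : (σ η) ^ 2 = η ^ 2 := by rw [← map_pow, hc, AlgHom.commutes]
  have hmem : η ∈ IntermediateField.adjoin K S := IntermediateField.subset_adjoin K S hη
  rcases sq_eq_sq_iff_eq_or_eq_neg.1 h1 with h | h
  · change σ η ∈ _
    rw [h]
    exact hmem
  · change σ η ∈ _
    rw [h]
    exact neg_mem hmem

theorem MQ.multiquadratic {N : IntermediateField K (AlgebraicClosure K)} (h : MQ N) :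
    Multiquadratic K N := by
  have hnor := h.normal
  have hfd := h.fd
  refine ⟨{}, fun g => ?_⟩
  obtain ⟨σ, rfl⟩ := AlgEquiv.restrictNormalHom_surjective (AlgebraicClosure K) (K₁ := N) g
  obtain ⟨S, hS, hS', hNS⟩ := h
  have key : ∀ x ∈ N, σ (σ x) = x := by
    have h1 : N ≤ fx (σ * σ) := by
      rw [hNS, IntermediateField.adjoin_le_iff]
      intro η hη
      obtain ⟨c, hc⟩ := hS' η hη
      have h1 : (σ η) ^ 2 = η ^ 2 := by rw [← map_pow, hc, AlgEquiv.commutes]
      change η ∈ fx (σ * σ)
      rw [mem_fx, AlgEquiv.mul_apply]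
      rcases sq_eq_sq_iff_eq_or_eq_neg.1 h1 with h | h
      · rw [h, h]
      · rw [h, map_neg, h, neg_neg]
    intro x hx
    exact mem_fx.1 (h1 hx)
  rw [← map_mul]
  apply AlgEquiv.ext
  intro x
  apply (algebraMap N (AlgebraicClosure K)).injective
  have h2 := AlgEquiv.restrictNormal_commutes (σ * σ) N x
  change algebraMap N (AlgebraicClosure K) (((σ * σ).restrictNormal N) x) = _
  rw [h2]
  exact key _ x.2

theorem multiquadratic_fixedField {N : Type} [Field N] [Algebra K N] [FiniteDimensional K N]
    (h : Multiquadratic K N) (B : Subgroup (N ≃ₐ[K] N)) :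
    Multiquadratic K (IntermediateField.fixedField B) := by
  have hgal := h.1
  have hcomm : ∀ a b : N ≃ₐ[K] N, a * b = b * a := by
    intro a b
    have h1 := h.2 (a * b)
    have h2 := h.2 a
    have h3 := h.2 b
    have h4 : a⁻¹ = a := inv_eq_of_mul_eq_one_left h2
    have h5 : b⁻¹ = b := inv_eq_of_mul_eq_one_left h3
    have h6 : (a * b)⁻¹ = a * b := inv_eq_of_mul_eq_one_left h1
    rw [← h6, mul_inv_rev, h4, h5]
  have hnB : B.Normal := ⟨fun b hb g => by
    rw [hcomm g b, mul_assoc, mul_inv_cancel, mul_one]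
    exact hb⟩
  have hg : IsGalois K (IntermediateField.fixedField B) := inferInstance
  refine ⟨hg, fun g => ?_⟩
  obtain ⟨σ, rfl⟩ := AlgEquiv.restrictNormalHom_surjective N
    (K₁ := IntermediateField.fixedField B) g
  rw [← map_mul, h.2 σ, map_one]

/-- the fixed fields of the cyclic subgroups -/
theorem rk_fixedField {W : WeierstrassCurve K} (hW : W.IsElliptic)
    {N : IntermediateField K (AlgebraicClosure K)} [FiniteDimensional K N] [Normal K N] {R : ℕ}
    (hR : ∀ σ : GK K, R ≤ rk (W.baseChange (N ⊓ fx σ : IntermediateField K (AlgebraicClosure K))))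
    (g : N ≃ₐ[K] N) :
    R ≤ rk (W.baseChange (IntermediateField.fixedField (Subgroup.zpowers g))) := by
  obtain ⟨σ, rfl⟩ := AlgEquiv.restrictNormalHom_surjective (AlgebraicClosure K) (K₁ := N) g
  refine (hR σ).trans ?_
  have hnf : NumberField N := NumberField.of_module_finite K N
  have hnf2 : NumberField (IntermediateField.fixedField
      (Subgroup.zpowers (AlgEquiv.restrictNormalHom N σ))) := NumberField.of_module_finite K _
  refine rk_le hW ?_
  let f₀ : (N ⊓ fx σ : IntermediateField K (AlgebraicClosure K)) →ₐ[K] N :=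
    IntermediateField.inclusion inf_le_left
  refine f₀.codRestrict (IntermediateField.fixedField
      (Subgroup.zpowers (AlgEquiv.restrictNormalHom N σ))).toSubalgebra fun z => ?_
  change f₀ z ∈ IntermediateField.fixedField _
  rw [IntermediateField.mem_fixedField_iff]
  have h1 : ∀ z' : N, σ (z' : AlgebraicClosure K) = z' →
      (AlgEquiv.restrictNormalHom N σ) z' = z' := by
    intro z' hz'
    apply (algebraMap N (AlgebraicClosure K)).injective
    have h2 := AlgEquiv.restrictNormal_commutes σ N z'
    exact h2.trans hz'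
  have h3 : (AlgEquiv.restrictNormalHom N σ) (f₀ z) = f₀ z := h1 _ (mem_fx.1 z.2.2)
  rintro τ ⟨n, rfl⟩
  have h4 : AlgEquiv.restrictNormalHom N σ ∈ MulAction.stabilizer (N ≃ₐ[K] N) (f₀ z) := h3
  exact Subgroup.zpow_mem _ h4 n

end

end Pool.Agent.Q5.HR
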