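import Pool.Agent.H26.Lib.R_pool_sql_team_seeded_3997aac3.Q5.HR.Artin
import Pool.Agent.H26.Lib.R_pool_sql_team_seeded_3997aac3.Q5.HR.Tower
import Pool.Agent.H26.Lib.R_pool_sql_team_seeded_3997aac3.Q5.BR.Bsd

/-! The law for fields of large rank. -/

set_option autoImplicit false
set_option linter.unusedSectionVars false

namespace Pool.Agent.Q5.HR

open NumberField IsDedekindDomain Filter Pool.Agent.H341R2 Pool.Agent.H341R2.EC
  Pool.Agent.H921R2.TatePole Pool.Agent.W353.NF Pool.Agent.W401.Cheb Pool.Agent.Q5.BR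
open Pool.Agent.TH322.BC.Edge (MinimalModels)
open scoped Topology

open Pool.Agent.TH322.BC.Edge renaming LSeries → LS

section
variable {K : Type} [Field K] [NumberField K]

/-- **The step for an arbitrary relation.** -/
theorem bsd_rel {U : Set (Set ℂ)} (hU : IsDomains U) {E : WeierstrassCurve K} (hE : E.IsElliptic)
    {ι : Type} [Fintype ι] {X : ι → Ext K} {n : ι → ℤ} {m : ℤ}
    (hrel : ∀ σ : GK K, ∑ j, n j * (fixn K (X j).F σ : ℤ) = m) (t : ℤ)
    (h : ∀ j, AllB U (E.map (algebraMap K (X j).F)) t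
      (t * BR.rk (E.map (algebraMap K (X j).F)))) :
    AllB U E (m * t) (m * t * BR.rk E) := by
  classical
  intro V₀ hV₀
  have hEj : ∀ j, (E.map (algebraMap K (X j).F)).IsElliptic := fun j => inferInstance
  choose V hV using fun j => exists_minimalModels (E.map (algebraMap K (X j).F)) (hEj j)
  obtain ⟨S, hS⟩ := LS_pow (m := m) hrel hE hV₀ hV
  choose u huU f hf hf' hf'' using fun j => h j (V j) (hV j)
  obtain ⟨u₀, hu₀, hsub⟩ := hU.inter_fin huU
  have h1 := (hU.2.1 u₀ hu₀).2.2.1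
  have hrk : ∑ j, n j * (BR.rk (E.map (algebraMap K (X j).F)) : ℤ) = m * BR.rk E := by
    have h2 := rank_relation hrel hE
    have h3 : (Module.finrank ℤ (E.baseChange K).toAffine.Point : ℤ) = (BR.rk E : ℤ) := by
      rw [← rk_baseChange E]
      rfl
    rw [h3] at h2
    exact h2
  have hR := Rfun_meromorphic n m V₀ V S
  refine ⟨u₀, hu₀, fun s => (Rfun n m V₀ V S s) ^ t * ∏ j, (f j s) ^ (n j),
    fun s hs => ?_, fun s hs => ?_, ?_⟩
  · refine MeromorphicAt.fun_mul ?_ (MeromorphicAt.fun_prod fun j _ => ?_)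
    · exact MeromorphicAt.fun_zpow (hR s (Set.mem_univ s)) t
    · exact MeromorphicAt.fun_zpow (hf j s (hsub j hs)) (n j)
  · rw [zpow_mul, hS s hs, mul_zpow]
    change _ * (∏ j, (f j s) ^ (n j)) = _
    congr 1
    rw [← Finset.prod_zpow]
    refine Finset.prod_congr rfl fun j _ => ?_
    rw [hf' j s hs, ← zpow_mul, ← zpow_mul, mul_comm]
  · have hm : ∀ j, MeromorphicAt (f j) 1 := fun j => hf j 1 (hsub j h1)
    have hR1 : MeromorphicAt (Rfun n m V₀ V S) 1 := hR 1 (Set.mem_univ _)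
    rw [fun_meromorphicOrderAt_mul (hR1.fun_zpow t)
      (MeromorphicAt.fun_prod fun j _ => (hm j).fun_zpow (n j)), fun_meromorphicOrderAt_zpow hR1,
      Rfun_order, mul_zero, zero_add]
    have h4 : meromorphicOrderAt (fun s => ∏ j, (f j s) ^ (n j)) 1 =
        ∑ j, meromorphicOrderAt (fun s => (f j s) ^ (n j)) 1 := by
      rw [← meromorphicOrderAt_prod fun j _ => (hm j).fun_zpow (n j)]
      congr 1
      ext s
      rw [Finset.prod_apply]
    rw [h4]
    have h5 : ∀ j, meromorphicOrderAt (fun s => (f j s) ^ (n j)) 1 =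
        ((n j * (t * BR.rk (E.map (algebraMap K (X j).F))) : ℤ) : WithTop ℤ) := by
      intro j
      rw [fun_meromorphicOrderAt_zpow (hm j), hf'' j]
      rfl
    rw [Finset.sum_congr rfl fun j _ => h5 j, ← WithTop.coe_sum]
    congr 1
    have h6 : m * t * BR.rk E = t * (m * BR.rk E) := by ring
    rw [h6, ← hrk, Finset.mul_sum]
    exact Finset.sum_congr rfl fun j _ => by ring

/-- the order of an elementary abelian `2`-group -/
theorem card_two_pow {G : Type} [Group G] [Finite G] (h : ∀ g : G, g * g = 1) :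
    ∃ k : ℕ, Nat.card G = 2 ^ k := by
  have h1 : IsPGroup 2 G := fun g => ⟨1, by rw [pow_one, sq, h]⟩
  have : Fact (Nat.Prime 2) := ⟨Nat.prime_two⟩
  exact IsPGroup.iff_card.1 h1

/-- **The law.** -/
theorem law {U : Set (Set ℂ)} (hU : IsDomains U) {E : WeierstrassCurve K} (hE : E.IsElliptic)
    (h4 : E.c₄ ≠ 0) (h6 : E.c₆ ≠ 0) (R : ℕ)
    (h : ∀ (F : Type) [Field F] [NumberField F] [Algebra K F], Multiquadratic K F →
      R ≤ BR.rk (E.map (algebraMap K F)) →
      AllB U (E.map (algebraMap K F)) 1 (BR.rk (E.map (algebraMap K F)))) :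
    ∃ k : ℕ, AllB U E ((2 ^ k : ℕ) : ℤ) (((2 ^ k : ℕ) : ℤ) * BR.rk E) := by
  classical
  obtain ⟨N, hN, hR⟩ := tower hE h4 h6 R
  have hfd := hN.fd
  have hnor := hN.normal
  have hmq := hN.multiquadratic
  obtain ⟨k, hk⟩ := card_two_pow hmq.2
  refine ⟨k, ?_⟩
  obtain ⟨ι, _, B, n, hB, hrel⟩ := artin_relation N
  have hnf : ∀ j, NumberField (IntermediateField.fixedField (B j)) := fun j =>
    NumberField.of_module_finite K _
  let X : ι → Ext K := fun j => @Ext.mk K _ _ (IntermediateField.fixedField (B j)) _ (hnf j) _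
  rw [hk] at hrel
  have h1 := bsd_rel (X := X) hU hE hrel 1 (by
    intro j
    rw [one_mul]
    refine h (IntermediateField.fixedField (B j)) (multiquadratic_fixedField hmq (B j)) ?_
    obtain ⟨g, hg⟩ := hB j
    have h2 := rk_fixedField hE hR g
    rw [← hg] at h2
    exact h2)
  rw [mul_one] at h1
  exact h1

end

end Pool.Agent.Q5.HR
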